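import Pool.Agent.HWG.St

/-!
helper36. A symmetric numerical semigroup `G` with Frobenius number 239 and a step `s = 18`, not in
`G`, such that every `x` with `x, x + s, x + 2 s` in `G` is a sum of two elements `p` with
`p, p + s` in `G`. Found with a SAT solver, checked here by the kernel.
-/

set_option autoImplicit false

namespace Pool.Agent.HWG

/-- the elements of `G` which are at most 239, as a bit mask -/
def mask : ℕ :=
  0x7fffffffffffffffff673bd900098d4e6fff642319000000000000000001

/-- membership in `G` -/
def inG (n : ℕ) : Bool := decide (239 < n) || Nat.testBit mask n

private def Check_add : Bool := (List.range 240).all fun a => !(inG a) ||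
  (List.range 240).all fun b => !(inG b) || inG (a + b)

private def Check_sym : Bool := (List.range 240).all fun n => (inG n) == !(inG (239 - n))

private def Check_bad : Bool := (List.range 480).all fun x =>
  !(inG x && inG (x + 18) && inG (x + 2 * 18)) ||
    (List.range (x + 1)).any fun p => inG p && inG (p + 18) && inG (x - p) && inG (x - p + 18)

private theorem Check_add_true : Check_add = true := by decide +kernel

private theorem Check_sym_true : Check_sym = true := by decide +kernel

private theorem Check_bad_true : Check_bad = true := by decide +kernel

/-- the semigroup -/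
def GG : SG where
  G n := inG n = true
  F := 239
  zero := by decide
  add := by
    intro a b ha hb
    by_cases hab : 239 < a + b
    · simp [inG, hab]
    · have h := Check_add_true
      unfold Check_add at h
      rw [List.all_eq_true] at h
      have h1 := h a (List.mem_range.2 (by omega))
      rw [ha, Bool.not_true, Bool.false_or, List.all_eq_true] at h1
      have h2 := h1 b (List.mem_range.2 (by omega))
      rwa [hb, Bool.not_true, Bool.false_or] at h2
  big := by
    intro n hn
    simp [inG, hn]
  sym := by
    intro n hn
    have h := Check_sym_true
    unfold Check_sym at h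
    rw [List.all_eq_true] at h
    have h1 := h n (List.mem_range.2 (by omega))
    rw [beq_iff_eq] at h1
    rw [h1]
    cases inG (239 - n) <;> simp

theorem bad : Bad GG 18 := by
  refine ⟨by show ¬ inG 18 = true; decide, ?_⟩
  intro x hx h0 h1 h2
  have h := Check_bad_true
  unfold Check_bad at h
  rw [List.all_eq_true] at h
  have h3 := h x (List.mem_range.2 hx)
  change inG x = true at h0
  change inG (x + 18) = true at h1
  change inG (x + 2 * 18) = true at h2
  rw [h0, h1, h2, Bool.and_true, Bool.and_true, Bool.not_true, Bool.false_or, List.any_eq_true] at h3
  obtain ⟨p, hp, h4⟩ := h3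
  rw [List.mem_range] at hp
  simp only [Bool.and_eq_true] at h4
  obtain ⟨⟨⟨h5, h6⟩, h7⟩, h8⟩ := h4
  exact ⟨p, x - p, by omega, h5, h6, h7, h8⟩

theorem thm_Check : St_Check := ⟨GG, 18, bad⟩

end Pool.Agent.HWG
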