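import Pool.Agent.HWG.St

/-!
helper11. The ideal generated by `X ^ (F + 1)` in `K[[G]]` is irreducible.
-/

set_option autoImplicit false

namespace Pool.Agent.HWG

open scoped Classical
open PowerSeries

variable {K : Type} [Field K]

private lemma Gor_c0 (f g : PowerSeries K) : coeff 0 (f * g) = coeff 0 f * coeff 0 g := by
  simp [coeff_mul]

private lemma Gor_mono (n : ℕ) (b : K) (f : PowerSeries K) (d m : ℕ) (h : n + m = d) :
    coeff d (C b * X ^ n * f) = b * coeff m f := by
  have e : d - n = m := by omega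
  rw [mul_assoc, coeff_C_mul, coeff_X_pow_mul', if_pos (by omega), e]

/-- divisibility by `S.x` -/
private lemma Gor_dvd (S : SG) (a : S.R K) (h0 : ∀ m < S.F + 1, coeff m (a : PowerSeries K) = 0)
    (h1 : ∀ n, coeff (n + (S.F + 1)) (a : PowerSeries K) ≠ 0 → S.G n) : S.x K ∣ a := by
  obtain ⟨q, hq⟩ := X_pow_dvd_iff.2 h0
  have hqR : q ∈ S.R K := by
    intro n hn
    apply h1
    rw [hq, coeff_X_pow_mul]
    exact hn
  exact ⟨⟨q, hqR⟩, Subtype.ext hq⟩

/-- the functional is nondegenerate -/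
private lemma Gor_dual (S : SG) (a : S.R K)
    (h : ∀ r : S.R K, coeff (S.F + (S.F + 1)) ((r * a : S.R K) : PowerSeries K) = 0) :
    S.x K ∣ a := by
  have key : ∀ m n : ℕ, m + n = S.F + (S.F + 1) → S.G m → coeff n (a : PowerSeries K) = 0 := by
    intro m n hmn hm
    have h1 := h ⟨C 1 * X ^ m, S.mem_mono m hm 1⟩
    have h2 : ((⟨C 1 * X ^ m, S.mem_mono m hm 1⟩ * a : S.R K) : PowerSeries K) =
      C 1 * X ^ m * (a : PowerSeries K) := rfl
    rw [h2, Gor_mono m 1 _ _ n hmn, one_mul] at h1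
    exact h1
  refine Gor_dvd S a ?_ ?_
  · intro n hn
    exact key (S.F + (S.F + 1) - n) n (by omega) (S.big _ (by omega))
  · intro n hn
    by_contra hG
    have hle : n ≤ S.F := by
      by_contra h1
      exact hG (S.big n (by omega))
    have h1 : S.G (S.F - n) := by
      by_contra h2
      exact hG ((S.sym n hle).2 h2)
    exact hn (key (S.F - n) (n + (S.F + 1)) (by omega) h1)

/-- the socle element -/
private noncomputable def Gor_w (K : Type) [Field K] (S : SG) : S.R K :=
  ⟨C 1 * X ^ (S.F + (S.F + 1)), S.mem_mono _ (S.big _ (by omega)) 1⟩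

private lemma Gor_not (S : SG) : ¬ S.G S.F := by
  have h1 := S.sym S.F le_rfl
  rw [Nat.sub_self] at h1
  intro h
  exact (h1.1 h) S.zero

private lemma Gor_w_ndvd (S : SG) : ¬ S.x K ∣ Gor_w K S := by
  rintro ⟨q, hq⟩
  have h1 : (C 1 * X ^ (S.F + (S.F + 1)) : PowerSeries K) = X ^ (S.F + 1) * (q : PowerSeries K) :=
    congrArg Subtype.val hq
  have h2 := congrArg (coeff (S.F + (S.F + 1))) h1
  rw [coeff_C_mul, coeff_X_pow, if_pos rfl, mul_one, coeff_X_pow_mul] at h2
  exact Gor_not S (q.2 _ (by rw [← h2]; exact one_ne_zero))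

private lemma Gor_main (S : SG) (J : Ideal (S.R K)) (hJ : Ideal.span {S.x K} ≤ J) (a : S.R K)
    (haJ : a ∈ J) (ha : ¬ S.x K ∣ a)
    (hr : ∀ r : S.R K, coeff 0 (r : PowerSeries K) = 0 → S.x K ∣ r * a) :
    Gor_w K S ∈ J := by
  set k := coeff (S.F + (S.F + 1)) (a : PowerSeries K) with hk
  have hC : ∀ b : K, (C b : PowerSeries K) ∈ S.R K := by
    intro b
    have := S.mem_mono (K := K) 0 S.zero b
    rwa [pow_zero, mul_one] at this
  let Ck : S.R K := ⟨C k, hC k⟩
  have hr' : ∀ r : S.R K, coeff 0 (r : PowerSeries K) = 0 →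
      coeff (S.F + (S.F + 1)) ((r * a : S.R K) : PowerSeries K) = 0 := by
    intro r hr0
    obtain ⟨q, hq⟩ := hr r hr0
    rw [hq]
    have h1 : ((S.x K * q : S.R K) : PowerSeries K) = X ^ (S.F + 1) * (q : PowerSeries K) := rfl
    rw [h1, coeff_X_pow_mul]
    by_contra h2
    exact Gor_not S (q.2 _ h2)
  have hb : S.x K ∣ a - Ck * Gor_w K S := by
    refine Gor_dual S _ fun r => ?_
    set r0 := coeff 0 (r : PowerSeries K) with hr0d
    let Cr : S.R K := ⟨C r0, hC r0⟩
    have e1 : r * (a - Ck * Gor_w K S) = Cr * a + (r - Cr) * a - r * (Ck * Gor_w K S) := by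
      ring
    have e2 : ((Cr * a + (r - Cr) * a - r * (Ck * Gor_w K S) : S.R K) : PowerSeries K) =
        C r0 * (a : PowerSeries K) + (((r - Cr) * a : S.R K) : PowerSeries K) -
          C k * X ^ (S.F + (S.F + 1)) * (r : PowerSeries K) := by
      have e3 : ((r * (Ck * Gor_w K S) : S.R K) : PowerSeries K) =
          C k * X ^ (S.F + (S.F + 1)) * (r : PowerSeries K) := by
        show (r : PowerSeries K) * (C k * (C 1 * X ^ (S.F + (S.F + 1)))) = _
        rw [map_one, one_mul]
        ring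
      rw [← e3]
      rfl
    rw [e1, e2, map_sub, map_add, coeff_C_mul, Gor_mono (S.F + (S.F + 1)) k _ _ 0 (by omega),
      ← hr0d, hr' (r - Cr) (by
        show coeff 0 ((r : PowerSeries K) - C r0) = 0
        rw [map_sub, coeff_C, if_pos rfl, ← hr0d, sub_self])]
    rw [← hk]
    ring
  have hbJ : a - Ck * Gor_w K S ∈ J := hJ (Ideal.mem_span_singleton.2 hb)
  have hCw : Ck * Gor_w K S ∈ J := by
    have h1 := J.sub_mem haJ hbJ
    rwa [sub_sub_cancel] at h1
  have hk0 : k ≠ 0 := by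
    intro h0
    apply ha
    have h1 : Ck = 0 := by
      apply Subtype.ext
      show (C k : PowerSeries K) = 0
      rw [h0, map_zero]
    rw [h1, zero_mul, sub_zero] at hb
    exact hb
  let Ci : S.R K := ⟨C k⁻¹, hC _⟩
  have h2 : Ci * (Ck * Gor_w K S) = Gor_w K S := by
    apply Subtype.ext
    show (C k⁻¹ : PowerSeries K) * (C k * (C 1 * X ^ (S.F + (S.F + 1)))) =
      C 1 * X ^ (S.F + (S.F + 1))
    rw [← mul_assoc, ← map_mul, inv_mul_cancel₀ hk0, map_one, one_mul]
  rw [← h2]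
  exact J.mul_mem_left _ hCw

private lemma Gor_ind (S : SG) (J : Ideal (S.R K)) (hJ : Ideal.span {S.x K} ≤ J) :
    ∀ k : ℕ, k ≤ 2 * (S.F + 1) → ∀ a : S.R K, a ∈ J → ¬ S.x K ∣ a →
    (X : PowerSeries K) ^ (2 * (S.F + 1) - k) ∣ (a : PowerSeries K) → Gor_w K S ∈ J := by
  intro k
  induction k with
  | zero =>
    intro _ a _ ha hX
    exfalso
    apply ha
    have h1 := X_pow_dvd_iff.1 hX
    refine Gor_dvd S a (fun m hm => h1 m (by omega)) ?_
    intro n hn
    refine S.big n ?_
    by_contra h2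
    exact hn (h1 _ (by omega))
  | succ k ih =>
    intro hk a haJ ha hX
    by_cases hr : ∀ r : S.R K, coeff 0 (r : PowerSeries K) = 0 → S.x K ∣ r * a
    · exact Gor_main S J hJ a haJ ha hr
    · push Not at hr
      obtain ⟨r, hr0, hra⟩ := hr
      refine ih (by omega) (r * a) (J.mul_mem_left r haJ) hra ?_
      have h1 : (X : PowerSeries K) ∣ (r : PowerSeries K) := X_dvd_iff.2 (by
        rw [← hr0, coeff_zero_eq_constantCoeff_apply])
      have h2 := mul_dvd_mul h1 hX
      rw [← pow_succ'] at h2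
      have h3 : 2 * (S.F + 1) - (k + 1) + 1 = 2 * (S.F + 1) - k := by omega
      rw [h3] at h2
      exact h2

theorem thm_Gor : St_Gor := by
  intro S K _
  have key : ∀ J : Ideal (S.R K), Ideal.span {S.x K} ≤ J → J ≠ Ideal.span {S.x K} →
      Gor_w K S ∈ J := by
    intro J hJ hne
    have h1 : ∃ a ∈ J, a ∉ Ideal.span {S.x K} := by
      by_contra hcon
      push Not at hcon
      exact hne (le_antisymm (fun a ha => hcon a ha) hJ)
    obtain ⟨a, haJ, ha⟩ := h1
    rw [Ideal.mem_span_singleton] at ha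
    exact Gor_ind S J hJ (2 * (S.F + 1)) le_rfl a haJ ha
      (by rw [Nat.sub_self, pow_zero]; exact one_dvd _)
  refine ⟨?_, ?_⟩
  · rw [isMax_iff_eq_top, Ideal.eq_top_iff_one, Ideal.mem_span_singleton]
    rintro ⟨q, hq⟩
    have h1 : (1 : PowerSeries K) = X ^ (S.F + 1) * (q : PowerSeries K) := congrArg Subtype.val hq
    have h2 := congrArg (coeff 0) h1
    rw [coeff_X_pow_mul', if_neg (by omega), coeff_one, if_pos rfl] at h2
    exact one_ne_zero h2
  · intro J J' hJJ
    by_contra hcon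
    push Not at hcon
    have h1 := key J (hJJ ▸ inf_le_left) hcon.1
    have h2 := key J' (hJJ ▸ inf_le_right) hcon.2
    have h3 : Gor_w K S ∈ J ⊓ J' := ⟨h1, h2⟩
    rw [hJJ, Ideal.mem_span_singleton] at h3
    exact Gor_w_ndvd S h3

end Pool.Agent.HWG
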