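import Pool.Agent.HWG.St

/-!
Module Noether of HWG: the semigroup ring is Noetherian (Cohen).
-/

set_option autoImplicit false

namespace Pool.Agent.HWG

open scoped Classical
open PowerSeries

noncomputable section

private def gen (S : SG) (K : Type) [Field K] (n : ℕ) : S.R K :=
  if h : S.G n then ⟨X ^ n, S.mem_X n h⟩ else 0

private theorem coe_gen (S : SG) (K : Type) [Field K] (n : ℕ) (h : S.G n) :
    ((gen S K n : S.R K) : PowerSeries K) = X ^ n := by
  unfold gen
  rw [dif_pos h]

theorem thm_Noether : St_Noether := by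
  intro hUnit hDiv S K _
  refine IsNoetherianRing.of_prime_ne_bot fun P hP hP0 => ?_
  obtain ⟨s, hs, hs0⟩ := Submodule.exists_mem_ne_zero_of_ne_bot hP0
  have hmem : ∀ x : S.R K, coeff 0 (x : PowerSeries K) = 0 → x ∈ P := by
    intro x hx
    obtain ⟨N, hN⟩ := hDiv S K x s hx hs0
    exact hP.mem_of_pow_mem N (P.mem_of_dvd hN hs)
  have hmem' : ∀ x ∈ P, coeff 0 (x : PowerSeries K) = 0 := by
    intro x hx
    by_contra h
    exact hP.ne_top (P.eq_top_of_isUnit_mem hx ((hUnit S K x).2 h))
  obtain ⟨c, hc⟩ : ∃ c, c = S.F + 1 := ⟨_, rfl⟩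
  obtain ⟨I, hI⟩ : ∃ I : Ideal (S.R K), I = Ideal.span (gen S K '' (Finset.Ico 1 (2 * c))) :=
    ⟨_, rfl⟩
  have hIfg : I.FG := by
    rw [hI]
    exact Submodule.fg_span ((Finset.finite_toSet _).image _)
  have hg : ∀ n, 1 ≤ n → n < 2 * c → gen S K n ∈ I := fun n h1 h2 => by
    rw [hI]
    exact Ideal.subset_span ⟨n, by simp [h1, h2], rfl⟩
  have hcG : S.G c := S.big _ (by omega)
  have hPI : P = I := by
    apply le_antisymm
    · intro x hx
      have hx0 := hmem' x hx
      have hxR := (S.mem_R _).1 x.2
      obtain ⟨f, hf⟩ : ∃ f : ℕ → K, f = fun n => coeff n (x : PowerSeries K) := ⟨_, rfl⟩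
      have hfG : ∀ n, ¬ S.G n → f n = 0 := fun n hn => by
        rw [hf]
        by_contra h
        exact hn (hxR n h)
      -- the coefficients as constants
      have hC : ∀ a : K, C a ∈ S.R K := fun a => by
        have := S.mem_mono (K := K) 0 S.zero a
        rwa [pow_zero, mul_one] at this
      have ht : (X ^ c * PowerSeries.mk fun n => f (n + 2 * c)) ∈ S.R K := by
        rw [hc]
        exact S.mem_big _
      have hco : ∀ n, ((⟨C (f n), hC _⟩ * gen S K n : S.R K) : PowerSeries K) =
          C (f n) * X ^ n := by
        intro n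
        by_cases h : S.G n
        · rw [Subring.coe_mul, coe_gen S K n h]
        · rw [Subring.coe_mul]
          show C (f n) * _ = C (f n) * X ^ n
          rw [hfG n h, map_zero, zero_mul, zero_mul]
      have ex : x = ∑ n ∈ Finset.range (2 * c), ⟨C (f n), hC _⟩ * gen S K n +
          ⟨_, ht⟩ * gen S K c := by
        apply Subtype.ext
        rw [Subring.coe_add, AddSubmonoidClass.coe_finsetSum, Subring.coe_mul, coe_gen S K c hcG]
        rw [Finset.sum_congr rfl fun n _ => hco n]
        ext k
        have e1 : (X ^ c * PowerSeries.mk fun n => f (n + 2 * c)) * X ^ c =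
            X ^ (2 * c) * PowerSeries.mk fun n => f (n + 2 * c) := by
          rw [two_mul c, pow_add]
          ring
        rw [map_add, map_sum]
        rw [show (((⟨X ^ c * PowerSeries.mk fun n => f (n + 2 * c), ht⟩ : S.R K) :
          PowerSeries K) * X ^ c) = X ^ (2 * c) * PowerSeries.mk fun n => f (n + 2 * c) from e1]
        rw [coeff_X_pow_mul']
        have e2 : ∀ n, coeff k (C (f n) * X ^ n : PowerSeries K) = if k = n then f n else 0 := by
          intro n
          rw [coeff_C_mul, coeff_X_pow]
          split_ifs <;> simp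
        rw [Finset.sum_congr rfl fun n _ => e2 n, Finset.sum_ite_eq]
        by_cases hk : k < 2 * c
        · rw [if_pos (Finset.mem_range.2 hk), if_neg (by omega), add_zero, hf]
        · rw [if_neg (by simpa using hk), if_pos (by omega), zero_add, coeff_mk, hf]
          congr 1
          congr 1
          omega
      rw [ex]
      refine I.add_mem (Ideal.sum_mem _ fun n hn => ?_) (I.mul_mem_left _ (hg c (by omega)
        (by omega)))
      rw [Finset.mem_range] at hn
      by_cases h0 : n = 0
      · have : f n = 0 := by
          rw [h0, hf]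
          exact hx0
        have h1 : (⟨C (f n), hC _⟩ * gen S K n : S.R K) = 0 := by
          apply Subtype.ext
          rw [hco, this, map_zero, zero_mul]
          rfl
        rw [h1]
        exact I.zero_mem
      · exact I.mul_mem_left _ (hg n (by omega) hn)
    · rw [hI, Ideal.span_le]
      rintro _ ⟨n, hn, rfl⟩
      refine hmem _ ?_
      have hn1 : 1 ≤ n := by
        have := Finset.mem_Ico.1 (Finset.mem_coe.1 hn)
        exact this.1
      by_cases h : S.G n
      · rw [coe_gen S K n h, coeff_X_pow, if_neg (by omega)]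
      · unfold gen
        rw [dif_neg h]
        exact map_zero _
  rw [hPI]
  exact hIfg

end

end Pool.Agent.HWG
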