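import Pool.Agent.HWG.St

/-!
helper9 (adapted from HWY, helper74, and HWX, helper77). The ring is local, of Krull dimension one, and Gorenstein in the sense of the frozen statement.
-/

set_option autoImplicit false

namespace Pool.Agent.HWG

open scoped Classical
open PowerSeries

theorem thm_Pack : St_Pack := by
  intro hU hDv S K _ hI
  have hnu : ∀ a : (S.R K), a ∈ nonunits (S.R K) ↔ coeff 0 (a : PowerSeries K) = 0 := by
    intro a
    rw [mem_nonunits_iff, hU S K a, not_not]
  have hloc : IsLocalRing (S.R K) := by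
    refine IsLocalRing.of_nonunits_add fun a b ha hb => ?_
    rw [hnu] at ha hb ⊢
    show coeff 0 ((a : PowerSeries K) + (b : PowerSeries K)) = 0
    rw [map_add, ha, hb, add_zero]
  have hmax : ∀ x : (S.R K), x ∈ IsLocalRing.maximalIdeal (S.R K) ↔ coeff 0 (x : PowerSeries K) = 0 := by
    intro x
    rw [IsLocalRing.mem_maximalIdeal, hnu]
  have hx3 : (S.x K) ≠ 0 := by
    intro h0
    have h1 : (X ^ (S.F + 1) : PowerSeries K) = 0 := congrArg Subtype.val h0
    exact pow_ne_zero _ X_ne_zero h1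
  have hx3m : (S.x K) ∈ IsLocalRing.maximalIdeal (S.R K) := by
    rw [hmax]
    show coeff 0 (X ^ (S.F + 1) : PowerSeries K) = 0
    rw [coeff_X_pow, if_neg (by omega)]
  have hprime : ∀ P : Ideal (S.R K), P ≠ ⊥ → P.IsPrime → P.IsMaximal := by
    intro P hP hPp
    obtain ⟨s, hsP, hs0⟩ := Submodule.exists_mem_ne_zero_of_ne_bot hP
    have h1 : IsLocalRing.maximalIdeal (S.R K) ≤ P := by
      intro x hx
      rw [hmax] at hx
      obtain ⟨N, hN⟩ := hDv S K x s hx hs0
      exact hPp.mem_of_pow_mem N (P.mem_of_dvd hN hsP)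
    have h2 : P = IsLocalRing.maximalIdeal (S.R K) :=
      le_antisymm (IsLocalRing.le_maximalIdeal hPp.ne_top) h1
    rw [h2]
    exact IsLocalRing.maximalIdeal.isMaximal _
  have hdim : ringKrullDim (S.R K) = 1 := by
    apply le_antisymm
    · have h1 : Ring.KrullDimLE 1 (S.R K) := Ring.KrullDimLE.mk₁' hprime
      have h2 := (Order.krullDimLE_iff 1 (PrimeSpectrum (S.R K))).1 h1
      exact_mod_cast h2
    · have h3 : (⊥ : Ideal (S.R K)).IsPrime := Ideal.isPrime_bot
      refine Order.one_le_krullDim_iff.2 ⟨⟨⊥, h3⟩, ⟨IsLocalRing.maximalIdeal (S.R K),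
        (IsLocalRing.maximalIdeal.isMaximal (S.R K)).isPrime⟩, ?_⟩
      show (⊥ : Ideal (S.R K)) < IsLocalRing.maximalIdeal (S.R K)
      rw [bot_lt_iff_ne_bot]
      intro h4
      rw [h4] at hx3m
      exact hx3 ((Submodule.mem_bot _).1 hx3m)
  refine ⟨hloc, hmax, ⟨hdim, [(S.x K)], ?_, ?_, ?_, ?_⟩, ⟨?_, (S.x K), hx3m, hx3, hI⟩⟩
  · intro x hx
    rw [List.mem_singleton] at hx
    rw [hx]
    exact hx3m
  · refine ⟨(RingTheory.Sequence.isWeaklyRegular_singleton_iff (S.R K) (S.x K)).2 ?_, ?_⟩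
    · intro a b hab
      exact mul_left_cancel₀ hx3 hab
    · intro h5
      have h6 : (1 : (S.R K)) ∈ (Ideal.ofList [(S.x K)] • (⊤ : Submodule (S.R K) (S.R K))) := by
        rw [← h5]
        exact Submodule.mem_top
      rw [Ideal.ofList_singleton, smul_eq_mul, Ideal.mul_top] at h6
      have h7 : Ideal.span {(S.x K)} ≤ IsLocalRing.maximalIdeal (S.R K) := by
        rw [Ideal.span_singleton_le_iff_mem]
        exact hx3m
      exact (Ideal.ne_top_iff_one _).1 (IsLocalRing.maximalIdeal.isMaximal (S.R K)).ne_top (h7 h6)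
  · rw [hdim]
    rfl
  · have h8 : {r : (S.R K) | r ∈ [(S.x K)]} = {(S.x K)} := by
      ext r
      simp
    rw [h8]
    exact hI
  · intro x hx s hs
    rw [hmax] at hx
    exact hDv S K x s hx hs

end Pool.Agent.HWG
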