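import Pool.Agent.HWG.St

/-!
helper11. Units and divisibility in `K[[G]]`.
-/

set_option autoImplicit false

namespace Pool.Agent.HWG

open scoped Classical
open PowerSeries

theorem thm_Unit : St_Unit := by
  intro S K _ x
  constructor
  · intro hx h0
    obtain ⟨y, hy⟩ := hx.exists_right_inv
    have h1 : (x : PowerSeries K) * (y : PowerSeries K) = 1 := congrArg Subtype.val hy
    have h2 := congrArg (coeff 0) h1
    have h3 : coeff 0 ((x : PowerSeries K) * (y : PowerSeries K)) =
        coeff 0 (x : PowerSeries K) * coeff 0 (y : PowerSeries K) := by simp [coeff_mul]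
    rw [h3, h0, zero_mul, coeff_one, if_pos rfl] at h2
    exact zero_ne_one h2
  · intro h0
    have hc : constantCoeff (x : PowerSeries K) ≠ 0 := by
      rw [← coeff_zero_eq_constantCoeff_apply]
      exact h0
    have h1 : (x : PowerSeries K) * (x : PowerSeries K)⁻¹ = 1 := PowerSeries.mul_inv_cancel _ hc
    set y := (x : PowerSeries K)⁻¹ with hy
    have hy0 : ∀ n, coeff n y ≠ 0 → S.G n := by
      intro n
      induction n using Nat.strong_induction_on with
      | _ n ih =>
        intro hn
        rcases Nat.eq_zero_or_pos n with h | h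
        · rw [h]; exact S.zero
        have e := congrArg (coeff n) h1
        rw [coeff_mul, coeff_one, if_neg (by omega)] at e
        have hp0 : ((0, n) : ℕ × ℕ) ∈ Finset.HasAntidiagonal.antidiagonal n := by
          rw [Finset.HasAntidiagonal.mem_antidiagonal]; simp
        rw [← Finset.add_sum_erase _ _ hp0] at e
        have hne : ∑ p ∈ (Finset.HasAntidiagonal.antidiagonal n).erase (0, n),
            coeff p.1 (x : PowerSeries K) * coeff p.2 y ≠ 0 := by
          intro h2
          rw [h2, add_zero] at e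
          exact mul_ne_zero h0 hn e
        obtain ⟨p, hp, hp1⟩ := Finset.exists_ne_zero_of_sum_ne_zero hne
        have hp2 := Finset.HasAntidiagonal.mem_antidiagonal.1 (Finset.mem_of_mem_erase hp)
        have hp3 := Finset.ne_of_mem_erase hp
        have hlt : p.2 < n := by
          rcases Nat.eq_zero_or_pos p.1 with h4 | h4
          · exfalso
            apply hp3
            ext
            · exact h4
            · show p.2 = n
              omega
          · omega
        rw [← hp2]
        exact S.add _ _ (x.2 _ (left_ne_zero_of_mul hp1)) (ih _ hlt (right_ne_zero_of_mul hp1))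
    exact IsUnit.of_mul_eq_one (⟨y, hy0⟩ : S.R K) (Subtype.ext h1)

theorem thm_Divide : St_Divide := by
  intro S K _ x s hx hs
  have hs0 : (s : PowerSeries K) ≠ 0 := fun h0 => hs (Subtype.ext h0)
  have hex : ∃ n, coeff n (s : PowerSeries K) ≠ 0 := by
    by_contra hcon
    push Not at hcon
    exact hs0 (PowerSeries.ext fun n => by rw [hcon n, map_zero])
  have hn := Nat.find_spec hex
  have hlt : ∀ m < Nat.find hex, coeff m (s : PowerSeries K) = 0 := by
    intro m hm
    have := Nat.find_min hex hm
    push Not at this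
    exact this
  obtain ⟨u, hu⟩ := X_pow_dvd_iff.2 hlt
  set n := Nat.find hex
  have hu0 : constantCoeff u ≠ 0 := by
    rw [hu, coeff_X_pow_mul', if_pos le_rfl, Nat.sub_self,
      coeff_zero_eq_constantCoeff_apply] at hn
    exact hn
  have huv : u * u⁻¹ = 1 := PowerSeries.mul_inv_cancel _ hu0
  obtain ⟨x', hx'⟩ : (X : PowerSeries K) ∣ (x : PowerSeries K) := X_dvd_iff.2 (by
    rw [← hx, coeff_zero_eq_constantCoeff_apply])
  refine ⟨n + (S.F + 1), ⟨⟨X ^ (S.F + 1) * (u⁻¹ * x' ^ (n + (S.F + 1))), S.mem_big _⟩, ?_⟩⟩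
  apply Subtype.ext
  show (x : PowerSeries K) ^ (n + (S.F + 1)) =
    (s : PowerSeries K) * (X ^ (S.F + 1) * (u⁻¹ * x' ^ (n + (S.F + 1))))
  rw [hx', hu]
  calc (X * x') ^ (n + (S.F + 1)) = X ^ (n + (S.F + 1)) * x' ^ (n + (S.F + 1)) := mul_pow _ _ _
    _ = (X ^ n * X ^ (S.F + 1)) * ((u * u⁻¹) * x' ^ (n + (S.F + 1))) := by
        rw [huv, one_mul, pow_add]
    _ = X ^ n * u * (X ^ (S.F + 1) * (u⁻¹ * x' ^ (n + (S.F + 1)))) := by ring

end Pool.Agent.HWG
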