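import Pool.Agent.HWG.Main
import Pool.Agent.HWG.Unit
import Pool.Agent.HWG.Gor
import Pool.Agent.HWG.Noether
import Pool.Agent.HWG.Pack
import Pool.Agent.HWG.Check
import Pool.Agent.HWY.Two

/-! helper11. The semigroup generated by 33 numbers; the final statements. -/

set_option autoImplicit false

namespace Pool.Agent.HWG

open PowerSeries

/-- the generators -/
def gens : List ℕ := [72, 75, 76, 80, 81, 85, 90, 93, 94, 96, 97, 98, 99, 100, 101, 102, 103, 104,
  105, 106, 107, 109, 110, 113, 114, 115, 118, 120, 122, 123, 127, 128, 131]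

private def chk1 : Bool := gens.all inG

private def chk2 : Bool := (List.range 312).all fun n => !(inG n) || n == 0 ||
  gens.any fun g => decide (g ≤ n) && inG (n - g)

private theorem chk1_true : chk1 = true := by decide +kernel

private theorem chk2_true : chk2 = true := by decide +kernel

theorem mem_of_inG (n : ℕ) (h : inG n = true) :
    n ∈ AddSubmonoid.closure {g : ℕ | g ∈ gens} := by
  induction n using Nat.strong_induction_on with
  | _ n ih =>
    have hgen : ∀ g ∈ gens, g ∈ AddSubmonoid.closure {g : ℕ | g ∈ gens} :=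
      fun g hg => AddSubmonoid.subset_closure hg
    by_cases hn : n < 312
    · have h1 := chk2_true
      unfold chk2 at h1
      rw [List.all_eq_true] at h1
      have h2 := h1 n (List.mem_range.2 hn)
      rw [h, Bool.not_true, Bool.false_or, Bool.or_eq_true] at h2
      rcases h2 with h2 | h2
      · rw [beq_iff_eq] at h2
        rw [h2]
        exact AddSubmonoid.zero_mem _
      · rw [List.any_eq_true] at h2
        obtain ⟨g, hg, h3⟩ := h2
        rw [Bool.and_eq_true, decide_eq_true_iff] at h3
        have hpos : 0 < g := by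
          have : ∀ g ∈ gens, 0 < g := by decide
          exact this g hg
        have h4 := AddSubmonoid.add_mem _ (hgen g hg) (ih (n - g) (by omega) h3.2)
        rwa [Nat.add_sub_cancel' h3.1] at h4
    · have h3 : inG (n - 72) = true := by
        have : 239 < n - 72 := by omega
        simp [inG, this]
      have h4 := AddSubmonoid.add_mem _ (hgen 72 (by decide)) (ih (n - 72) (by omega) h3)
      rwa [Nat.add_sub_cancel' (by omega)] at h4

theorem mem_iff (n : ℕ) : n ∈ AddSubmonoid.closure {g : ℕ | g ∈ gens} ↔ GG.G n := by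
  constructor
  · intro h
    induction h using AddSubmonoid.closure_induction with
    | mem g hg =>
      have h1 := chk1_true
      unfold chk1 at h1
      rw [List.all_eq_true] at h1
      exact h1 g hg
    | zero => exact GG.zero
    | add a b _ _ ha hb => exact GG.add a b ha hb
  · exact mem_of_inG n

/-- every `x` with `x, x + 18, x + 36` in `G` decomposes -/
theorem bad_all (x : ℕ) (h0 : GG.G x) (h1 : GG.G (x + 18)) (h2 : GG.G (x + 36)) :
    ∃ y z, x = y + z ∧ GG.G y ∧ GG.G (y + 18) ∧ GG.G z ∧ GG.G (z + 18) := by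
  by_cases hx : x < 2 * GG.F + 2
  · obtain ⟨p, q, hpq, hp, hps, hq, hqs⟩ := bad.2 x hx h0 h1 h2
    exact ⟨p, q, hpq.symm, hp, hps, hq, hqs⟩
  · have hF : GG.F = 239 := rfl
    rw [hF] at hx
    exact ⟨240, x - 240, by omega, GG.big _ (by rw [hF]; omega), GG.big _ (by rw [hF]; omega),
      GG.big _ (by rw [hF]; omega), GG.big _ (by rw [hF]; omega)⟩

theorem final (K : Type) [Field K] :
    ∃ (_ : IsLocalRing (GG.R K)) (_ : IsNoetherianRing (GG.R K)),
      (∀ x : GG.R K, x ∈ IsLocalRing.maximalIdeal (GG.R K) ↔ coeff 0 (x : PowerSeries K) = 0) ∧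
      HWC.GorOne (GG.R K) ∧
      Module.IsReflexive (GG.R K)
        (TensorProduct (GG.R K) (Ideal.span {GG.x K, GG.y K 18} : Ideal (GG.R K))
          (Module.Dual (GG.R K) (Ideal.span {GG.x K, GG.y K 18} : Ideal (GG.R K)))) ∧
      ¬ Module.Free (GG.R K) (Ideal.span {GG.x K, GG.y K 18} : Ideal (GG.R K)) :=
  main thm_Unit thm_Divide thm_Noether thm_Gor thm_Pack HWY.thm_Two GG 18 bad K

end Pool.Agent.HWG
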