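import Mathlib

/-!
helper11. The semigroup ring `K[[G]]` of a symmetric numerical semigroup `G`.
-/

set_option autoImplicit false

namespace Pool.Agent.HWG

open PowerSeries

/-- a symmetric numerical semigroup with Frobenius number `F` -/
structure SG where
  G : ℕ → Prop
  F : ℕ
  zero : G 0
  add : ∀ a b, G a → G b → G (a + b)
  big : ∀ n, F < n → G n
  sym : ∀ n, n ≤ F → (G n ↔ ¬ G (F - n))

namespace SG

variable (S : SG) (K : Type) [Field K]

/-- the ring `K[[G]]`: power series with support in `G` -/
def R : Subring (PowerSeries K) where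
  carrier := {f | ∀ n, coeff n f ≠ 0 → S.G n}
  zero_mem' := by
    intro n hn
    exact absurd (map_zero _) hn
  one_mem' := by
    intro n hn
    rw [coeff_one] at hn
    split_ifs at hn with h
    · rw [h]; exact S.zero
    · exact absurd rfl hn
  add_mem' := by
    intro f g hf hg n hn
    by_contra h
    apply hn
    have h1 : coeff n f = 0 := by by_contra h1; exact h (hf n h1)
    have h2 : coeff n g = 0 := by by_contra h2; exact h (hg n h2)
    rw [map_add, h1, h2, add_zero]
  neg_mem' := by
    intro f hf n hn
    apply hf n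
    intro h
    apply hn
    rw [map_neg, h, neg_zero]
  mul_mem' := by
    intro f g hf hg n hn
    rw [coeff_mul] at hn
    obtain ⟨p, hp, hne⟩ := Finset.exists_ne_zero_of_sum_ne_zero hn
    rw [← Finset.HasAntidiagonal.mem_antidiagonal.1 hp]
    exact S.add _ _ (hf _ (left_ne_zero_of_mul hne)) (hg _ (right_ne_zero_of_mul hne))

variable {K}

theorem mem_R (f : PowerSeries K) : f ∈ S.R K ↔ ∀ n, coeff n f ≠ 0 → S.G n := Iff.rfl

/-- power series of order larger than `F` are in the ring -/
theorem mem_big (f : PowerSeries K) : X ^ (S.F + 1) * f ∈ S.R K := by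
  intro n hn
  rw [coeff_X_pow_mul'] at hn
  split_ifs at hn with h
  · exact S.big n (by omega)
  · exact absurd rfl hn

/-- monomials -/
theorem mem_mono (n : ℕ) (hn : S.G n) (a : K) : C a * X ^ n ∈ S.R K := by
  intro m hm
  rw [coeff_C_mul, coeff_X_pow] at hm
  split_ifs at hm with h
  · rw [h]; exact hn
  · rw [mul_zero] at hm
    exact absurd rfl hm

theorem mem_X (n : ℕ) (hn : S.G n) : (X : PowerSeries K) ^ n ∈ S.R K := by
  have := S.mem_mono (K := K) n hn 1
  rwa [map_one, one_mul] at this

/-- the parameter `X ^ (F + 1)` -/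
noncomputable def x (K : Type) [Field K] : S.R K := ⟨X ^ (S.F + 1), S.mem_X _ (S.big _ (by omega))⟩

end SG

end Pool.Agent.HWG
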