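import Pool.Agent.HWG.St
import Pool.Agent.HWY.St
import Pool.Agent.HWC.Reflex

/-! helper11. The monomial ideal `(X ^ (F + 1), X ^ (F + 1 + s))` of `K[[G]]`. -/

set_option autoImplicit false

namespace Pool.Agent.HWG

open PowerSeries

namespace SG

variable (S : SG) {K : Type} [Field K]

/-- `X ^ (F + 1 + s)` -/
noncomputable def y (K : Type) [Field K] (s : ℕ) : S.R K :=
  ⟨X ^ (S.F + 1 + s), S.mem_X _ (S.big _ (by omega))⟩

theorem coe_x : ((S.x K : S.R K) : PowerSeries K) = X ^ (S.F + 1) := rfl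

theorem coe_y (s : ℕ) : ((S.y K s : S.R K) : PowerSeries K) = X ^ (S.F + 1) * X ^ s :=
  pow_add _ _ _

theorem x_ne : S.x K ≠ 0 := fun h => pow_ne_zero (S.F + 1) X_ne_zero (congrArg Subtype.val h)

theorem dvd_iff (s : ℕ) (v : S.R K) :
    S.x K ∣ v * S.y K s ↔ X ^ s * (v : PowerSeries K) ∈ S.R K := by
  have hX : (X ^ (S.F + 1) : PowerSeries K) ≠ 0 := pow_ne_zero _ X_ne_zero
  constructor
  · rintro ⟨q, hq⟩
    have h1 : (v : PowerSeries K) * ((S.y K s : S.R K) : PowerSeries K) =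
      X ^ (S.F + 1) * (q : PowerSeries K) := congrArg Subtype.val hq
    have h2 : X ^ s * (v : PowerSeries K) = (q : PowerSeries K) := by
      apply mul_left_cancel₀ hX
      rw [← h1, coe_y]; ring
    rw [h2]
    exact q.2
  · intro h
    refine ⟨⟨_, h⟩, Subtype.ext ?_⟩
    show (v : PowerSeries K) * ((S.y K s : S.R K) : PowerSeries K) =
      X ^ (S.F + 1) * (X ^ s * (v : PowerSeries K))
    rw [coe_y]
    ring

theorem dvd_iff2 (s : ℕ) (v : S.R K) :
    S.x K ^ 2 ∣ v * S.y K s ^ 2 ↔ X ^ (2 * s) * (v : PowerSeries K) ∈ S.R K := by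
  have hX : ((X ^ (S.F + 1)) ^ 2 : PowerSeries K) ≠ 0 := pow_ne_zero 2 (pow_ne_zero _ X_ne_zero)
  constructor
  · rintro ⟨q, hq⟩
    have h1 : (v : PowerSeries K) * ((S.y K s : S.R K) : PowerSeries K) ^ 2 =
      (X ^ (S.F + 1)) ^ 2 * (q : PowerSeries K) := congrArg Subtype.val hq
    have h2 : X ^ (2 * s) * (v : PowerSeries K) = (q : PowerSeries K) := by
      apply mul_left_cancel₀ hX
      rw [← h1, coe_y]; ring
    rw [h2]
    exact q.2
  · intro h
    refine ⟨⟨_, h⟩, Subtype.ext ?_⟩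
    show (v : PowerSeries K) * ((S.y K s : S.R K) : PowerSeries K) ^ 2 =
      (X ^ (S.F + 1)) ^ 2 * (X ^ (2 * s) * (v : PowerSeries K))
    rw [coe_y]
    ring

/-- elements which are sums of products of elements of `R : I` -/
def SP (s : ℕ) (v : PowerSeries K) : Prop := ∃ (n : ℕ) (x y : Fin n → S.R K),
  (∀ i, X ^ s * (x i : PowerSeries K) ∈ S.R K) ∧ (∀ i, X ^ s * (y i : PowerSeries K) ∈ S.R K) ∧
  v = ∑ i, (x i : PowerSeries K) * (y i : PowerSeries K)

theorem SP_zero (s : ℕ) : S.SP s (0 : PowerSeries K) := ⟨0, Fin.elim0, Fin.elim0,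
  fun i => i.elim0, fun i => i.elim0, by simp⟩

theorem SP_add {s : ℕ} {u v : PowerSeries K} (hu : S.SP s u) (hv : S.SP s v) :
    S.SP s (u + v) := by
  obtain ⟨n, x, y, hx, hy, rfl⟩ := hu
  obtain ⟨m, x', y', hx', hy', rfl⟩ := hv
  refine ⟨n + m, Fin.append x x', Fin.append y y', fun i => ?_, fun i => ?_, ?_⟩
  · refine Fin.addCases (fun j => ?_) (fun j => ?_) i
    · rw [Fin.append_left]; exact hx j
    · rw [Fin.append_right]; exact hx' j
  · refine Fin.addCases (fun j => ?_) (fun j => ?_) i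
    · rw [Fin.append_left]; exact hy j
    · rw [Fin.append_right]; exact hy' j
  · rw [Fin.sum_univ_add]
    simp only [Fin.append_left, Fin.append_right]

theorem SP_one {s : ℕ} {x y : PowerSeries K} (hx : x ∈ S.R K) (hy : y ∈ S.R K)
    (hwx : X ^ s * x ∈ S.R K) (hwy : X ^ s * y ∈ S.R K) : S.SP s (x * y) :=
  ⟨1, fun _ => ⟨x, hx⟩, fun _ => ⟨y, hy⟩, fun _ => hwx, fun _ => hwy, by simp⟩

theorem SP_sum {s : ℕ} (n : ℕ) (f : Fin n → PowerSeries K) (h : ∀ i, S.SP s (f i)) :
    S.SP s (∑ i, f i) := by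
  induction n with
  | zero => simpa using S.SP_zero s
  | succ n ih =>
    rw [Fin.sum_univ_succ]
    exact S.SP_add (h 0) (ih _ fun i => h i.succ)

theorem coeff_of_mem {s : ℕ} {v : PowerSeries K} (h : X ^ s * v ∈ S.R K) (n : ℕ)
    (hn : coeff n v ≠ 0) : S.G (n + s) :=
  h (n + s) (by rw [coeff_X_pow_mul]; exact hn)

theorem mono_mem {s p : ℕ} (h : S.G (p + s)) (a : K) :
    X ^ s * (C a * X ^ p : PowerSeries K) ∈ S.R K := by
  have e : X ^ s * (C a * X ^ p : PowerSeries K) = C a * X ^ (p + s) := by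
    rw [pow_add]; ring
  rw [e]
  exact S.mem_mono _ h a

theorem decomp (N : ℕ) (v : PowerSeries K) :
    v = ∑ i : Fin N, C (coeff (i : ℕ) v) * X ^ (i : ℕ) +
      X ^ N * PowerSeries.mk (fun n => coeff (n + N) v) := by
  ext n
  rw [map_add, map_sum, coeff_X_pow_mul']
  have h1 : ∀ i : Fin N, coeff n (C (coeff (i : ℕ) v) * X ^ (i : ℕ)) =
      if n = (i : ℕ) then coeff n v else 0 := by
    intro i
    rw [coeff_C_mul, coeff_X_pow]
    split_ifs with h
    · rw [mul_one, ← h]
    · rw [mul_zero]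
  rw [Finset.sum_congr rfl fun i _ => h1 i]
  by_cases hn : N ≤ n
  · rw [if_pos hn, coeff_mk, Nat.sub_add_cancel hn, Finset.sum_eq_zero, zero_add]
    intro i _
    rw [if_neg]
    have := i.2
    omega
  · rw [if_neg hn, add_zero, Finset.sum_eq_single (⟨n, by omega⟩ : Fin N)]
    · rw [if_pos rfl]
    · intro i _ hi
      rw [if_neg]
      intro h
      apply hi
      ext
      exact h.symm
    · intro h
      exact absurd (Finset.mem_univ _) h

/-- the key step -/
theorem key (s : ℕ) (hb : Bad S s) (v : PowerSeries K) (hv0 : v ∈ S.R K)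
    (hv1 : X ^ s * v ∈ S.R K) (hv2 : X ^ (2 * s) * v ∈ S.R K) : S.SP s v := by
  rw [decomp (2 * S.F + 2) v]
  refine S.SP_add (S.SP_sum _ _ fun i => ?_) ?_
  · by_cases hn : coeff (i : ℕ) v = 0
    · rw [hn, map_zero, zero_mul]
      exact S.SP_zero s
    · obtain ⟨p, q, hpq, hp, hps, hq, hqs⟩ := hb.2 i i.2 (hv0 _ hn) (S.coeff_of_mem hv1 _ hn)
        (S.coeff_of_mem hv2 _ hn)
      have e : (C (coeff (i : ℕ) v) * X ^ (i : ℕ) : PowerSeries K) =
          (C (coeff (i : ℕ) v) * X ^ p) * (C 1 * X ^ q) := by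
        rw [← hpq, pow_add, map_one, one_mul]; ring
      rw [e]
      exact S.SP_one (S.mem_mono _ hp _) (S.mem_mono _ hq _) (S.mono_mem hps _)
        (S.mono_mem hqs _)
  · set h := PowerSeries.mk (fun n => coeff (n + (2 * S.F + 2)) v) with hh
    have e : X ^ (2 * S.F + 2) * h = (C 1 * X ^ (S.F + 1)) * (X ^ (S.F + 1) * h) := by
      rw [map_one, one_mul]; ring
    rw [e]
    refine S.SP_one (S.mem_mono _ (S.big _ (by omega)) _) (S.mem_big _)
      (S.mono_mem (S.big _ (by omega)) _) ?_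
    have e2 : X ^ s * (X ^ (S.F + 1) * h) = X ^ (S.F + 1) * (X ^ s * h) := by ring
    rw [e2]
    exact S.mem_big _

/-- the ideal is not free -/
theorem not_free (s : ℕ) (hs : ¬ S.G s) :
    ¬ Module.Free (S.R K) (Ideal.span {S.x K, S.y K s} : Ideal (S.R K)) := by
  intro hfree
  set I : Ideal (S.R K) := Ideal.span {S.x K, S.y K s} with hI
  obtain ⟨ι, β⟩ := hfree.exists_basis (R := S.R K) (M := I)
  have haI : S.x K ∈ I := Ideal.subset_span (by simp)
  have hbI : S.y K s ∈ I := Ideal.subset_span (by simp)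
  have hsub : ∀ i j : ι, i = j := by
    intro i j
    by_contra hij
    have h0 : (β j : S.R K) • β i = (β i : S.R K) • β j := by
      apply Subtype.ext
      show (β j : S.R K) * (β i : S.R K) = (β i : S.R K) * (β j : S.R K)
      exact mul_comm _ _
    have h1 := congrArg (fun z => β.repr z i) h0
    simp only [map_smul, Finsupp.smul_apply, Module.Basis.repr_self, smul_eq_mul] at h1
    rw [Finsupp.single_eq_same, Finsupp.single_eq_of_ne hij, mul_one, mul_zero] at h1
    exact β.ne_zero j (Subtype.ext h1)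
  have hne : Nonempty ι := by
    by_contra hemp
    rw [not_nonempty_iff] at hemp
    have h1 : (⟨S.x K, haI⟩ : I) = 0 := by
      apply β.repr.injective
      ext i
      exact isEmptyElim i
    exact S.x_ne (congrArg Subtype.val h1)
  obtain ⟨i⟩ := hne
  have hall : ∀ z : I, ∃ r : S.R K, (z : S.R K) = r * (β i : S.R K) := by
    intro z
    refine ⟨β.repr z i, ?_⟩
    have h1 : z = β.repr z i • β i := by
      apply β.repr.injective
      ext j
      rw [hsub j i, map_smul, Finsupp.smul_apply, Module.Basis.repr_self, Finsupp.single_eq_same,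
        smul_eq_mul, mul_one]
    exact congrArg Subtype.val h1
  obtain ⟨x, hx⟩ := hall ⟨_, haI⟩
  obtain ⟨y, hy⟩ := hall ⟨_, hbI⟩
  have hx' : S.x K = x * (β i : S.R K) := hx
  have hy' : S.y K s = y * (β i : S.R K) := hy
  obtain ⟨r, s', hrs⟩ := Ideal.mem_span_pair.1 (β i).2
  have hX : (X ^ (S.F + 1) : PowerSeries K) ≠ 0 := pow_ne_zero _ X_ne_zero
  have e1 : X ^ s * (x : PowerSeries K) = (y : PowerSeries K) := by
    have h2 : S.x K * y = S.y K s * x := by rw [hx', hy']; ring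
    have h3 : X ^ (S.F + 1) * (y : PowerSeries K) =
        ((S.y K s : S.R K) : PowerSeries K) * (x : PowerSeries K) :=
      congrArg Subtype.val h2
    apply mul_left_cancel₀ hX
    rw [h3, coe_y]; ring
  have e2 : (x : PowerSeries K) * ((r : PowerSeries K) + (s' : PowerSeries K) * X ^ s) = 1 := by
    have h2 : S.x K = x * (r * S.x K + s' * S.y K s) := by rw [hrs]; exact hx'
    have h3 : (X ^ (S.F + 1) : PowerSeries K) = (x : PowerSeries K) *
        ((r : PowerSeries K) * X ^ (S.F + 1) + (s' : PowerSeries K) *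
          ((S.y K s : S.R K) : PowerSeries K)) :=
      congrArg Subtype.val h2
    rw [coe_y] at h3
    apply mul_left_cancel₀ hX
    rw [mul_one]
    conv_rhs => rw [h3]
    ring
  have hx0 : coeff 0 (x : PowerSeries K) ≠ 0 := by
    intro h
    have h2 := congrArg (coeff 0) e2
    rw [coeff_mul, Finset.Nat.antidiagonal_zero, Finset.sum_singleton, h, zero_mul, coeff_one,
      if_pos rfl] at h2
    exact zero_ne_one h2
  apply hs
  have h5 := S.coeff_of_mem (s := s) (v := (x : PowerSeries K)) (by rw [e1]; exact y.2) 0 hx0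
  rwa [zero_add] at h5

end SG

/-- the statement with explicit dependence on the modules -/
theorem main (hU : St_Unit) (hDv : St_Divide) (hN : St_Noether) (hG : St_Gor) (hP : St_Pack)
    (hT : HWY.St_Two) (S : SG) (s : ℕ) (hb : Bad S s) (K : Type) [Field K] :
    ∃ (_ : IsLocalRing (S.R K)) (_ : IsNoetherianRing (S.R K)),
      (∀ x : S.R K, x ∈ IsLocalRing.maximalIdeal (S.R K) ↔ coeff 0 (x : PowerSeries K) = 0) ∧
      HWC.GorOne (S.R K) ∧
      Module.IsReflexive (S.R K)
        (TensorProduct (S.R K) (Ideal.span {S.x K, S.y K s} : Ideal (S.R K))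
          (Module.Dual (S.R K) (Ideal.span {S.x K, S.y K s} : Ideal (S.R K)))) ∧
      ¬ Module.Free (S.R K) (Ideal.span {S.x K, S.y K s} : Ideal (S.R K)) := by
  obtain ⟨hloc, hmax, hgor, hpkg⟩ := hP hU hDv S K (hG S K)
  have hnoeth : IsNoetherianRing (S.R K) := hN hU hDv S K
  refine ⟨hloc, hnoeth, hmax, hgor, ?_, S.not_free s hb.1⟩
  have htf := hT (S.R K) (S.x K) (S.y K s) S.x_ne (by
    intro v hv1 hv2
    rw [S.dvd_iff] at hv1
    rw [S.dvd_iff2] at hv2
    obtain ⟨n, x, y, hx, hy, hs⟩ := S.key (K := K) s hb (v : PowerSeries K) v.2 hv1 hv2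
    refine ⟨n, x, y, fun i => (S.dvd_iff s _).2 (hx i), fun i => (S.dvd_iff s _).2 (hy i), ?_⟩
    apply Subtype.ext
    rw [hs]
    simp only [AddSubmonoidClass.coe_finsetSum, Subring.coe_mul])
  exact HWC.reflexive (S.R K) hpkg _ htf

end Pool.Agent.HWG
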