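import Pool.Agent.HWG.Defs
import Pool.Agent.HWC.Defs

/-!
helper11. Statements of the modules of HWG (two-generated monomial ideals in semigroup rings
failing (HWC)). Do not change this file.
-/

set_option autoImplicit false

namespace Pool.Agent.HWG

open PowerSeries

/-- UNIT. -/
def St_Unit : Prop := ∀ (S : SG) (K : Type) [Field K] (x : S.R K),
  IsUnit x ↔ coeff 0 (x : PowerSeries K) ≠ 0

/-- DIVIDE. -/
def St_Divide : Prop := ∀ (S : SG) (K : Type) [Field K] (x s : S.R K),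
  coeff 0 (x : PowerSeries K) = 0 → s ≠ 0 → ∃ N : ℕ, s ∣ x ^ N

/-- NOETHER. -/
def St_Noether : Prop := St_Unit → St_Divide →
  ∀ (S : SG) (K : Type) [Field K], IsNoetherianRing (S.R K)

/-- GORENSTEIN. -/
def St_Gor : Prop := ∀ (S : SG) (K : Type) [Field K], InfIrred (Ideal.span {S.x K})

/-- PACKAGE. -/
def St_Pack : Prop := St_Unit → St_Divide → ∀ (S : SG) (K : Type) [Field K],
  InfIrred (Ideal.span {S.x K}) →
  ∃ _ : IsLocalRing (S.R K),
    (∀ x : S.R K, x ∈ IsLocalRing.maximalIdeal (S.R K) ↔ coeff 0 (x : PowerSeries K) = 0) ∧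
    HWC.GorOne (S.R K) ∧ HWC.Pkg (S.R K)

/-- the combinatorial condition: step `s`, every `x` with `x, x + s, x + 2 s` in `G` is a sum of two
elements `p` with `p, p + s` in `G` -/
def Bad (S : SG) (s : ℕ) : Prop := ¬ S.G s ∧ ∀ x, x < 2 * S.F + 2 → S.G x → S.G (x + s) →
  S.G (x + 2 * s) → ∃ p q, p + q = x ∧ S.G p ∧ S.G (p + s) ∧ S.G q ∧ S.G (q + s)

/-- FINITE CHECK (helper36). -/
def St_Check : Prop := ∃ (S : SG) (s : ℕ), Bad S s

end Pool.Agent.HWG
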